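import Pool.Agent.L7h48.RT.Stm

/-!
# Project RT (MP_fdca68_pr), part CUT

Deleting an edge splits at most one component, into two.
-/

set_option autoImplicit false

namespace Pool.Agent.L7h6.RT

open SimpleGraph
open scoped Classical
open Pool.Agent.L7h48.RT

/-- A property which is preserved by adjacency is preserved by reachability. -/
theorem step_ind {V : Type*} {G : SimpleGraph V} {P : V → Prop}
    (hP : ∀ x y, P x → G.Adj x y → P y) {a b : V} (h : G.Reachable a b) (ha : P a) : P b := by
  obtain ⟨p⟩ := h
  induction p with
  | nil => exact ha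
  | cons hadj p ih => exact ih (hP _ _ ha hadj)

section

variable {n : ℕ} (H : SimpleGraph (Fin n)) (u v : Fin n)

theorem adj_del {x y : Fin n} (h : H.Adj x y) (hne : s(x, y) ≠ s(u, v)) :
    (H.deleteEdges {s(u, v)}).Adj x y := by
  rw [deleteEdges_adj]
  exact ⟨h, by simpa using hne⟩

/-- In the component of `u` everything is joined with `u` or `v` without the edge. -/
theorem reach_two {x : Fin n} (h : H.Reachable u x) :
    (H.deleteEdges {s(u, v)}).Reachable u x ∨ (H.deleteEdges {s(u, v)}).Reachable v x := by
  refine step_ind (P := fun x => (H.deleteEdges {s(u, v)}).Reachable u x ∨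
    (H.deleteEdges {s(u, v)}).Reachable v x) ?_ h (Or.inl (Reachable.refl u))
  intro x y hx hxy
  by_cases he : s(x, y) = s(u, v)
  · rw [Sym2.eq_iff] at he
    rcases he with ⟨_, hy⟩ | ⟨_, hy⟩
    · exact Or.inr (hy ▸ Reachable.refl _)
    · exact Or.inl (hy ▸ Reachable.refl _)
  · have h1 := adj_del H u v hxy he
    exact hx.imp (fun h => h.trans h1.reachable) fun h => h.trans h1.reachable

/-- Outside the component of `u` nothing changes. -/
theorem reach_one {w x : Fin n} (hw : ¬ H.Reachable w u) (h : H.Reachable w x) :
    (H.deleteEdges {s(u, v)}).Reachable w x := by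
  refine step_ind (P := fun x => (H.deleteEdges {s(u, v)}).Reachable w x) ?_ h (Reachable.refl w)
  intro x y hx hxy
  have h0 : H.Reachable w x := hx.mono (deleteEdges_le _)
  by_cases he : s(x, y) = s(u, v)
  · exfalso
    rw [Sym2.eq_iff] at he
    rcases he with ⟨hxu, _⟩ | ⟨_, hyu⟩
    · exact hw (hxu ▸ h0)
    · exact hw (hyu ▸ h0.trans hxy.reachable)
  · exact hx.trans (adj_del H u v hxy he).reachable

end

/-- **[CUT]** -/
theorem s_CUT : S_CUT := by
  intro n l H e hl
  induction e using Sym2.ind with
  | _ u v =>
  set H' := H.deleteEdges {s(u, v)} with hH'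
  have hle : H' ≤ H := deleteEdges_le _
  set f : H.ConnectedComponent → ℝ := fun C => max ((C.supp.ncard : ℝ) - l) 0 with hf
  set f' : H'.ConnectedComponent → ℝ := fun C => max ((C.supp.ncard : ℝ) - l) 0 with hf'
  let φ : H'.ConnectedComponent → H.ConnectedComponent :=
    ConnectedComponent.map (Hom.ofLE hle)
  have hφ : ∀ x, φ (H'.connectedComponentMk x) = H.connectedComponentMk x := fun x => rfl
  set s := Finset.univ.image H.connectedComponentMk with hs
  set s' := Finset.univ.image H'.connectedComponentMk with hs'
  have hmap : ∀ C ∈ s', φ C ∈ s := by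
    intro C hC
    obtain ⟨x, -, rfl⟩ := Finset.mem_image.1 hC
    rw [hφ]
    exact Finset.mem_image_of_mem _ (Finset.mem_univ x)
  have h1 : Phi l H' = ∑ C ∈ s, ∑ D ∈ s' with φ D = C, f' D :=
    (Finset.sum_fiberwise_of_maps_to hmap f').symm
  set C0 := H.connectedComponentMk u with hC0
  have hC0s : C0 ∈ s := Finset.mem_image_of_mem _ (Finset.mem_univ u)
  have h2 : Phi l H - l = ∑ C ∈ s, (f C - if C = C0 then l else 0) := by
    rw [Finset.sum_sub_distrib, Finset.sum_ite_eq' s C0, if_pos hC0s]
    rfl
  rw [h2, h1]
  have hnn : ∀ D, 0 ≤ f' D := fun D => le_max_right _ _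
  refine Finset.sum_le_sum fun C hC => ?_
  by_cases hCC : C = C0
  · rw [if_pos hCC]
    set A := H'.connectedComponentMk u with hA
    set B := H'.connectedComponentMk v with hB
    have hAm : A ∈ s'.filter fun D => φ D = C := by
      rw [Finset.mem_filter]
      exact ⟨Finset.mem_image_of_mem _ (Finset.mem_univ u), by rw [hφ, hCC]⟩
    have hsub : C.supp ⊆ A.supp ∪ B.supp := by
      intro x hx
      rw [ConnectedComponent.mem_supp_iff, hCC, hC0, ConnectedComponent.eq] at hx
      rcases reach_two H u v hx.symm with h | h
      · left
        rw [ConnectedComponent.mem_supp_iff, hA, ConnectedComponent.eq]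
        exact h.symm
      · right
        rw [ConnectedComponent.mem_supp_iff, hB, ConnectedComponent.eq]
        exact h.symm
    have hcard : (C.supp.ncard : ℝ) ≤ A.supp.ncard + B.supp.ncard := by
      exact_mod_cast (Set.ncard_le_ncard hsub (Set.toFinite _)).trans (Set.ncard_union_le _ _)
    by_cases huv : A = B
    · have hcard' : (C.supp.ncard : ℝ) ≤ A.supp.ncard := by
        rw [← huv, Set.union_self] at hsub
        exact_mod_cast Set.ncard_le_ncard hsub (Set.toFinite _)
      have h3 : f' A ≤ ∑ D ∈ s' with φ D = C, f' D :=
        Finset.single_le_sum (fun D _ => hnn D) hAm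
      refine le_trans ?_ h3
      simp only [hf, hf']
      rw [sub_le_iff_le_add]
      refine max_le ?_ ?_
      · have := le_max_left ((A.supp.ncard : ℝ) - l) 0
        linarith
      · have := le_max_right ((A.supp.ncard : ℝ) - l) 0
        linarith
    · by_cases hB' : φ B = C
      · have hBm : B ∈ s'.filter fun D => φ D = C := by
          rw [Finset.mem_filter]
          exact ⟨Finset.mem_image_of_mem _ (Finset.mem_univ v), hB'⟩
        have h3 : f' A + f' B ≤ ∑ D ∈ s' with φ D = C, f' D := by
          rw [← Finset.sum_pair huv]
          refine Finset.sum_le_sum_of_subset_of_nonneg ?_ fun D _ _ => hnn D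
          intro D hD
          rw [Finset.mem_insert, Finset.mem_singleton] at hD
          rcases hD with rfl | rfl
          · exact hAm
          · exact hBm
        refine le_trans ?_ h3
        simp only [hf, hf']
        have e1 := le_max_left ((A.supp.ncard : ℝ) - l) 0
        have e2 := le_max_right ((A.supp.ncard : ℝ) - l) 0
        have e3 := le_max_left ((B.supp.ncard : ℝ) - l) 0
        have e4 := le_max_right ((B.supp.ncard : ℝ) - l) 0
        rw [sub_le_iff_le_add]
        refine max_le ?_ ?_
        · linarith
        · linarith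
      · have hsub' : C.supp ⊆ A.supp := by
          intro x hx
          rcases hsub hx with h | h
          · exact h
          · exfalso
            apply hB'
            rw [ConnectedComponent.mem_supp_iff] at h hx
            rw [← h, hφ, hx]
        have hcard' : (C.supp.ncard : ℝ) ≤ A.supp.ncard := by
          exact_mod_cast Set.ncard_le_ncard hsub' (Set.toFinite _)
        have h3 : f' A ≤ ∑ D ∈ s' with φ D = C, f' D :=
          Finset.single_le_sum (fun D _ => hnn D) hAm
        refine le_trans ?_ h3
        simp only [hf, hf']
        rw [sub_le_iff_le_add]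
        refine max_le ?_ ?_
        · have := le_max_left ((A.supp.ncard : ℝ) - l) 0
          linarith
        · have := le_max_right ((A.supp.ncard : ℝ) - l) 0
          linarith
  · rw [if_neg hCC, sub_zero]
    obtain ⟨w, -, rfl⟩ := Finset.mem_image.1 hC
    have hw : ¬ H.Reachable w u := by
      intro h
      exact hCC (ConnectedComponent.eq.2 h)
    set D := H'.connectedComponentMk w with hD
    have hDm : D ∈ s'.filter fun D => φ D = H.connectedComponentMk w := by
      rw [Finset.mem_filter]
      exact ⟨Finset.mem_image_of_mem _ (Finset.mem_univ w), hφ w⟩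
    have hsub : (H.connectedComponentMk w).supp ⊆ D.supp := by
      intro x hx
      rw [ConnectedComponent.mem_supp_iff, ConnectedComponent.eq] at hx ⊢
      exact (reach_one H u v hw hx.symm).symm
    have hcard : ((H.connectedComponentMk w).supp.ncard : ℝ) ≤ D.supp.ncard := by
      exact_mod_cast Set.ncard_le_ncard hsub (Set.toFinite _)
    have h3 : f' D ≤ ∑ D ∈ s' with φ D = H.connectedComponentMk w, f' D :=
      Finset.single_le_sum (fun D _ => hnn D) hDm
    refine le_trans ?_ h3
    simp only [hf, hf']
    exact max_le_max (by linarith) le_rfl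

end Pool.Agent.L7h6.RT
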